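import Pool.Agent.Zk70.Sc.Scat

/-!
# Non-scattered compact Hausdorff spaces: a closed subset maps onto the Cantor space
-/

namespace Pool.Agent.Zk70.Sc

set_option linter.unusedSectionVars false

open Set Topology Filter

universe u v

section

variable {X : Type v} [TopologicalSpace X]

theorem exists_perfect_of_not_scattered (h : ¬ Scattered X) :
    ∃ D : Set X, Perfect D ∧ D.Nonempty := by
  unfold Scattered at h
  push Not at h
  obtain ⟨S, hne, hS⟩ := h
  have hpre : Preperfect S := by
    intro x hx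
    rw [accPt_iff_nhds]
    intro U hU
    obtain ⟨V, hVU, hV, hxV⟩ := mem_nhds_iff.1 hU
    by_contra hcon
    push Not at hcon
    refine hS x hx V hV ?_
    ext y
    constructor
    · rintro ⟨hy, hyS⟩
      exact hcon y ⟨hVU hy, hyS⟩
    · rintro rfl
      exact ⟨hxV, hx⟩
  exact ⟨closure S, hpre.perfect_closure, hne.closure⟩

/-- Nonempty perfect sets. -/
def PP (X : Type v) [TopologicalSpace X] : Type v := {D : Set X // Perfect D ∧ D.Nonempty}

theorem exists_split [T2Space X] [CompactSpace X] (D : PP X) : ∃ f : Bool → PP X,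
    (∀ b, (f b).1 ⊆ D.1) ∧ Disjoint (f false).1 (f true).1 := by
  obtain ⟨C0, C1, ⟨h1, h2, h3⟩, ⟨h4, h5, h6⟩, h7⟩ := D.2.1.splitting D.2.2
  refine ⟨fun b => if b then ⟨C1, h4, h5⟩ else ⟨C0, h1, h2⟩, fun b => ?_, ?_⟩
  · cases b
    · simpa using h3
    · simpa using h6
  · simpa using h7

/-- A tree of nonempty perfect sets. -/
noncomputable def DD [T2Space X] [CompactSpace X] (D : PP X) : List Bool → PP X
  | [] => D
  | b :: s => (exists_split (DD D s)).choose b

variable [T2Space X] [CompactSpace X] (D : PP X)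

theorem DD_cons_subset (b : Bool) (s : List Bool) : (DD D (b :: s)).1 ⊆ (DD D s).1 :=
  (exists_split (DD D s)).choose_spec.1 b

theorem DD_disj (s : List Bool) : Disjoint (DD D (false :: s)).1 (DD D (true :: s)).1 :=
  (exists_split (DD D s)).choose_spec.2

theorem DD_unique {c : X} : ∀ {s t : List Bool}, s.length = t.length → c ∈ (DD D s).1 →
    c ∈ (DD D t).1 → s = t
  | [], [], _, _, _ => rfl
  | [], _ :: _, h, _, _ => by simp at h
  | _ :: _, [], h, _, _ => by simp at h
  | b :: s, b' :: t, h, h1, h2 => by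
    have h3 : s = t := DD_unique (by simpa using h) (DD_cons_subset D b s h1)
      (DD_cons_subset D b' t h2)
    subst h3
    cases b <;> cases b'
    · rfl
    · exact absurd h2 (disjoint_left.1 (DD_disj D s) h1)
    · exact absurd h1 (disjoint_left.1 (DD_disj D s) h2)
    · rfl

/-- The `n`-th level. -/
def lev (n : ℕ) : Set X := ⋃ s ∈ {s : List Bool | s.length = n}, (DD D s).1

theorem isClosed_levb (n : ℕ) (T : Set Bool) :
    IsClosed (⋃ b ∈ T, ⋃ s ∈ {s : List Bool | s.length = n}, (DD D (b :: s)).1) :=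
  (Set.toFinite T).isClosed_biUnion fun b _ =>
    (List.finite_length_eq Bool n).isClosed_biUnion fun s _ => (DD D (b :: s)).2.1.closed

theorem isClosed_lev (n : ℕ) : IsClosed (lev D n) :=
  (List.finite_length_eq Bool n).isClosed_biUnion fun s _ => (DD D s).2.1.closed

/-- The Cantor set-like closed set. -/
def CC : Set X := ⋂ n, lev D n

theorem isClosed_CC : IsClosed (CC D) := isClosed_iInter fun n => isClosed_lev D n

open Classical in
/-- The map onto the Cantor space. -/
noncomputable def ff (c : X) (n : ℕ) : Bool :=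
  decide (∃ s : List Bool, s.length = n ∧ c ∈ (DD D (true :: s)).1)

theorem ff_eq {c : X} (hc : c ∈ CC D) (n : ℕ) (b : Bool) :
    ff D c n = b ↔ ∃ s : List Bool, s.length = n ∧ c ∈ (DD D (b :: s)).1 := by
  classical
  have h1 := mem_iInter.1 hc (n + 1)
  obtain ⟨s, hs, h2⟩ := mem_iUnion₂.1 h1
  cases s with
  | nil => simp at hs
  | cons b' s =>
    have hs' : s.length = n := by simpa using hs
    have huniq : ∀ b'', (∃ s : List Bool, s.length = n ∧ c ∈ (DD D (b'' :: s)).1) ↔ b'' = b' := by
      intro b''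
      constructor
      · rintro ⟨t, ht, h3⟩
        have := DD_unique D (by simp [ht, hs']) h3 h2
        exact (List.cons.inj this).1
      · rintro rfl
        exact ⟨s, hs', h2⟩
    rw [huniq b]
    unfold ff
    by_cases hb : b' = true
    · rw [decide_eq_true ((huniq true).2 hb.symm), hb]
      exact eq_comm
    · have h3 : ¬ ∃ s : List Bool, s.length = n ∧ c ∈ (DD D (true :: s)).1 :=
        fun h => hb ((huniq true).1 h).symm
      rw [decide_eq_false h3]
      have : b' = false := by simpa using hb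
      rw [this]
      exact eq_comm

theorem continuousOn_ff : ContinuousOn (ff D) (CC D) := by
  rw [continuousOn_pi]
  intro n
  rw [continuousOn_iff_isClosed]
  intro T _
  refine ⟨⋃ b ∈ T, ⋃ s ∈ {s : List Bool | s.length = n}, (DD D (b :: s)).1,
    isClosed_levb D n T, ?_⟩
  ext c
  constructor
  · rintro ⟨h1, hc⟩
    refine ⟨?_, hc⟩
    obtain ⟨s, hs, h2⟩ := (ff_eq D hc n _).1 rfl
    exact mem_iUnion₂.2 ⟨_, h1, mem_iUnion₂.2 ⟨s, hs, h2⟩⟩
  · rintro ⟨h1, hc⟩
    refine ⟨?_, hc⟩
    obtain ⟨b, hb, h2⟩ := mem_iUnion₂.1 h1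
    obtain ⟨s, hs, h3⟩ := mem_iUnion₂.1 h2
    have := (ff_eq D hc n b).2 ⟨s, hs, h3⟩
    change ff D c n ∈ T
    rw [this]
    exact hb

theorem ff_surj (y : ℕ → Bool) : ∃ c ∈ CC D, ff D c = y := by
  -- the branch
  let br : ℕ → List Bool := fun n => Nat.rec [] (fun k l => y k :: l) n
  have hbr : ∀ n, br (n + 1) = y n :: br n := fun n => rfl
  have hlen : ∀ n, (br n).length = n := by
    intro n
    induction n with
    | zero => rfl
    | succ n ih => rw [hbr]; simp [ih]
  have hne : (⋂ n, (DD D (br n)).1).Nonempty := by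
    refine IsCompact.nonempty_iInter_of_sequence_nonempty_isCompact_isClosed
      (fun n => (DD D (br n)).1) (fun n => ?_) (fun n => (DD D (br n)).2.2)
      (DD D (br 0)).2.1.closed.isCompact (fun n => (DD D (br n)).2.1.closed)
    rw [hbr]
    exact DD_cons_subset D _ _
  obtain ⟨c, hc⟩ := hne
  rw [mem_iInter] at hc
  have hcC : c ∈ CC D := mem_iInter.2 fun n => mem_iUnion₂.2 ⟨br n, hlen n, hc n⟩
  refine ⟨c, hcC, funext fun n => ?_⟩
  exact (ff_eq D hcC n (y n)).2 ⟨br n, hlen n, hc (n + 1)⟩

end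

theorem exists_onto_cantor {X : Type v} [TopologicalSpace X] [T2Space X] [CompactSpace X]
    (h : ¬ Scattered X) : ∃ (C : Set X) (f : X → ℕ → Bool), IsClosed C ∧ ContinuousOn f C ∧
      ∀ y, ∃ c ∈ C, f c = y := by
  obtain ⟨D, hD⟩ := exists_perfect_of_not_scattered h
  exact ⟨CC ⟨D, hD⟩, ff ⟨D, hD⟩, isClosed_CC _, continuousOn_ff _, ff_surj _⟩

/-- The Cantor space is not scattered. -/
theorem not_scattered_cantor : ¬ Scattered (ℕ → Bool) := by
  intro h
  obtain ⟨x, -, U, hU, h1⟩ := h univ univ_nonempty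
  rw [inter_univ] at h1
  rw [h1] at hU
  have h2 : ({x} : Set (ℕ → Bool)) ∈ 𝓝 x := hU.mem_nhds rfl
  -- the sequence with one coordinate changed
  have h3 : Tendsto (fun n : ℕ => Function.update x n (!(x n))) atTop (𝓝 x) := by
    rw [tendsto_pi_nhds]
    intro k
    refine tendsto_const_nhds.congr' ?_
    filter_upwards [eventually_gt_atTop k] with n hn
    rw [Function.update_of_ne hn.ne]
  obtain ⟨n, hn⟩ := (h3.eventually h2).exists
  have h4 := congrFun (mem_singleton_iff.1 hn) n
  simp at h4

end Pool.Agent.Zk70.Sc
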