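import Pool.Agent.V11244.CohCore

/-!
# Scattered compact spaces and the `k`-Rothberger game in forcing extensions
-/

namespace Pool.Agent.Zk70.Sc

set_option linter.unusedSectionVars false

open Pool.Agent.Helper669.Forcing
open Pool.Agent.V11244.CohGame
open Pool.Agent.V11244.CohCore (Coh Can Nm fLegal Strat no_strat)
open Set Topology

universe u v

/-- A space is scattered if all nonempty subsets have an isolated point. -/
def Scattered (X : Type v) [TopologicalSpace X] : Prop :=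
  ∀ S : Set X, S.Nonempty → ∃ x ∈ S, ∃ U, IsOpen U ∧ U ∩ S = {x}

/-! ### Scattered compact spaces stay compact -/

section pos

variable {P : Type u} [Preorder P] {X : Type v} [TopologicalSpace X]

theorem down_fOpenFam (A : Set X → Set P) : Down (fOpenFam A) :=
  down_fall fun _ => down_fimp _ _

theorem isOpen_of_meets {A : Set X → Set P} {q r : P} (hA : q ∈ fOpenFam A) (hr : r ≤ q)
    {O : Set X} (h : r ∈ meets (A O)) : IsOpen O := by
  obtain ⟨r', _, h1⟩ := mem_fimp.1 (hA O) r hr h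
  exact h1

theorem fcompact_of_scattered [CompactSpace X] (h : Scattered X) (p : P) :
    p ∈ fCompact (fun _ : X => (univ : Set P)) := by
  classical
  intro A
  refine mem_fimp.2 fun q _ hA => ?_
  obtain ⟨hA1, hA2⟩ := hA
  suffices H : ∃ r ≤ q, ∃ F : Finset (Set X), (∀ O ∈ F, r ∈ meets (A O)) ∧
      (univ : Set X) ⊆ ⋃₀ (F : Set (Set X)) by
    obtain ⟨r, hr, F, h1, h2⟩ := H
    refine ⟨r, hr, mem_fex_of_mem F (down_fand (down_fall fun _ => down_fall fun _ =>
      down_meets _) (down_fall fun _ => down_fimp _ _)) ⟨fun O hO => h1 O hO, fun x =>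
        mem_fimp.2 fun q' _ _ => ⟨q', le_rfl, ?_⟩⟩⟩
    obtain ⟨O, hO, hx⟩ := h2 (mem_univ x)
    exact ⟨O, hO, hx⟩
  by_contra hbad
  let B : Set (Set X) := {K | IsClosed K ∧ ¬ ∃ r ≤ q, ∃ F : Finset (Set X),
    (∀ O ∈ F, r ∈ meets (A O)) ∧ K ⊆ ⋃₀ (F : Set (Set X))}
  have hchain : ∀ c ⊆ B, IsChain (· ⊆ ·) c → ∃ lb ∈ B, ∀ s ∈ c, lb ⊆ s := by
    intro c hc hch
    rcases c.eq_empty_or_nonempty with rfl | hne
    · exact ⟨univ, ⟨isClosed_univ, hbad⟩, by simp⟩
    refine ⟨⋂₀ c, ⟨isClosed_sInter fun K hK => (hc hK).1, ?_⟩, fun s hs => sInter_subset_of_mem hs⟩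
    rintro ⟨r, hr, F, h1, h2⟩
    have hopen : IsOpen (⋃₀ (F : Set (Set X))) :=
      isOpen_sUnion fun O hO => isOpen_of_meets hA1 hr (h1 O hO)
    have hne' : Nonempty c := hne.to_subtype
    have hdir : Directed (· ⊇ ·) (fun K : c => (K : Set X)) := by
      intro a b
      rcases hch.total a.2 b.2 with hab | hab
      · exact ⟨a, subset_rfl, hab⟩
      · exact ⟨b, hab, subset_rfl⟩
    obtain ⟨K, hK⟩ := exists_subset_nhds_of_isCompact' hdir
      (fun K => (hc K.2).1.isCompact) (fun K => (hc K.2).1)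
      (U := ⋃₀ (F : Set (Set X))) (fun x hx => hopen.mem_nhds (h2 (by
        rw [sInter_eq_iInter]; exact hx)))
    exact (hc K.2).2 ⟨r, hr, F, h1, hK⟩
  obtain ⟨K, hK⟩ := zorn_superset B hchain
  have hKB : K ∈ B := hK.prop
  have hKne : K.Nonempty := by
    by_contra hKe
    rw [not_nonempty_iff_eq_empty] at hKe
    exact hKB.2 ⟨q, le_rfl, ∅, by simp, by simp [hKe]⟩
  obtain ⟨x, hx, U, hU, hUK⟩ := h K hKne
  have h3 : K \ U ∉ B := by
    intro h4
    have h5 := hK.le_of_le h4 sdiff_subset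
    exact (h5 hx).2 ((hUK.symm ▸ mem_singleton x : x ∈ U ∩ K).1)
  have h4 : ∃ r ≤ q, ∃ F : Finset (Set X), (∀ O ∈ F, r ∈ meets (A O)) ∧
      K \ U ⊆ ⋃₀ (F : Set (Set X)) := by
    by_contra h5
    exact h3 ⟨hKB.1.sdiff hU, h5⟩
  obtain ⟨r, hr, F, h5, h6⟩ := h4
  obtain ⟨r1, hr1, h7⟩ := mem_fimp.1 (hA2 x) r hr (meets_of_mem (mem_univ _))
  obtain ⟨r2, hr2, O, h8⟩ := mem_fex.1 h7 r1 le_rfl
  obtain ⟨r3, hr3, hxO, h9⟩ := mem_fex.1 h8 r2 le_rfl
  refine hKB.2 ⟨r3, hr3.trans (hr2.trans (hr1.trans hr)), insert O F, fun O' hO' => ?_, ?_⟩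
  · rcases Finset.mem_insert.1 hO' with rfl | hO'
    · exact h9
    · exact down_meets _ _ (h5 O' hO') _ (hr3.trans (hr2.trans hr1))
  · intro y hy
    by_cases hyU : y ∈ U
    · have : y ∈ U ∩ K := ⟨hyU, hy⟩
      rw [hUK] at this
      rw [mem_singleton_iff.1 this]
      exact ⟨O, by simp, hxO⟩
    · obtain ⟨O', hO', hy'⟩ := h6 ⟨hy, hyU⟩
      exact ⟨O', by simpa using Or.inr (by simpa using hO'), hy'⟩

theorem eq_of_meets_eq {Q : Prop} {q : P} (h : q ∈ meets ({_r | Q} : Set P)) : Q := by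
  obtain ⟨-, -, s, hs, -⟩ := h q le_rfl
  exact hs

/-- The strategy answering the whole space wins, if the space stays compact. -/
theorem winning_of_scattered [CompactSpace X] (h : Scattered X)
    {C : (Set X → Set P) → Set P} (hC : ∀ A p, p ∈ fSingle A → p ∈ C A) (p : P) :
    p ∈ fWinning fKCover C fKCover (fun (_ : ℕ) _ (O : Set X) => ({_r : P | O = univ} : Set P)) := by
  have hsingle : ∀ q : P, q ∈ fSingle (fun O : Set X => ({_r : P | O = univ} : Set P)) := by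
    intro q
    refine ⟨mem_fex_of_mem univ (down_meets _) (meets_of_mem rfl), fun O O' =>
      mem_fimp.2 fun q' _ h1 => ⟨q', le_rfl, ?_⟩⟩
    exact (eq_of_meets_eq h1.1).trans (eq_of_meets_eq h1.2).symm
  refine ⟨fun n A B => mem_fimp.2 fun q _ _ => ⟨q, le_rfl, fun O => ?_⟩, fun n A =>
    mem_fimp.2 fun q _ hA => ⟨q, le_rfl, hC _ _ (hsingle q), fun O => mem_fimp.2 fun q' hq' h1 => ?_⟩,
    fun A => mem_fimp.2 fun q _ _ => ⟨q, le_rfl, fun O => mem_fimp.2 fun q' _ h1 =>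
      ⟨q', le_rfl, ?_⟩, fun K => mem_fimp.2 fun q' _ _ => ⟨q', le_rfl, ?_⟩⟩⟩
  · exact ⟨mem_fimp.2 fun q' _ h1 => ⟨q', le_rfl, h1⟩, mem_fimp.2 fun q' _ h1 => ⟨q', le_rfl, h1⟩⟩
  · have hO : O = univ := eq_of_meets_eq h1
    subst hO
    obtain ⟨r, hr, h2⟩ := mem_fimp.1 ((hA (Fin.last n)).2 (fun _ => univ)) q' hq'
      (fcompact_of_scattered h q')
    obtain ⟨r1, hr1, O, h3, h4⟩ := mem_fex.1 h2 r le_rfl
    refine ⟨r1, hr1.trans hr, ?_⟩
    have hO : O = univ := by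
      rw [eq_univ_iff_forall]
      intro x
      obtain ⟨_, _, h5⟩ := mem_fimp.1 (h4 x) r1 le_rfl (meets_of_mem (mem_univ _))
      exact h5
    rw [← hO]
    exact h3
  · have hO : O = univ := by
      refine eq_of_meets_eq (q := q') (fun q hq => ?_)
      obtain ⟨r, hr, s, hs, hle⟩ := h1 q hq
      obtain ⟨n, hn⟩ := mem_iUnion.1 hs
      exact ⟨r, hr, s, hn, hle⟩
    rw [hO]
    exact isOpen_univ
  · refine mem_fex_of_mem univ (down_fand (down_meets _) (down_fall fun _ => down_fimp _ _))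
      ⟨meets_of_mem (mem_iUnion.2 ⟨0, rfl⟩), fun x => mem_fimp.2 fun q' _ _ =>
        ⟨q', le_rfl, mem_univ x⟩⟩

theorem fFinite_of_single {A : Set X → Set P} {p : P} (h : p ∈ fSingle A) : p ∈ fFinite A := by
  refine mem_fex.2 fun q hq => ?_
  obtain ⟨r, hr, O, h1⟩ := mem_fex.1 h.1 q hq
  refine ⟨r, hr, {O}, fun O' => mem_fimp.2 fun q' hq' h2 => ?_⟩
  obtain ⟨r', hr', h3⟩ := mem_fimp.1 (h.2 O O') q' (hq'.trans (hr.trans hq))
    ⟨down_meets _ _ h1 _ hq', h2⟩
  refine ⟨r', hr', ?_⟩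
  rw [mem_fground, Finset.mem_singleton]
  exact (mem_fground.1 h3).symm

theorem down_fWinning {𝒜 𝒞 ℬ : (Set X → Set P) → Set P}
    (S : (n : ℕ) → (Fin (n + 1) → Set X → Set P) → Set X → Set P) :
    Down (fWinning 𝒜 𝒞 ℬ S) :=
  down_fand (down_fall fun _ => down_fall fun _ => down_fall fun _ => down_fimp _ _)
    (down_fand (down_fall fun _ => down_fall fun _ => down_fimp _ _)
      (down_fall fun _ => down_fimp _ _))

theorem winsOne_of_scattered [CompactSpace X] (h : Scattered X) (p : P) :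
    p ∈ fIIWinsOne (P := P) (X := X) fKCover fKCover :=
  mem_fex_of_mem _ (down_fWinning _) (winning_of_scattered h (fun _ _ h => h) p)

theorem winsFin_of_scattered [CompactSpace X] (h : Scattered X) (p : P) :
    p ∈ fIIWinsFin (P := P) (X := X) fKCover fKCover :=
  mem_fex_of_mem _ (down_fWinning _) (winning_of_scattered h (fun _ _ h => fFinite_of_single h) p)

end pos

end Pool.Agent.Zk70.Sc
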