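import Pool.Agent.Zk70.Sc.Cant

/-!
# Cohen forcing destroys winning strategies on non-scattered compact Hausdorff spaces
-/

namespace Pool.Agent.Zk70.Sc

set_option linter.unusedSectionVars false

open Pool.Agent.Helper669.Forcing
open Pool.Agent.V11244.CohGame
open Pool.Agent.V11244.CohCore (Coh Can Nm fLegal Strat no_strat meets_of_dense)
open Set Topology

universe v

section

variable {X : Type v} [TopologicalSpace X] {C : Set X} {f : X → ℕ → Bool}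

/-- The open set of the space given by an open set of the Cantor space. -/
def WW (C : Set X) (f : X → ℕ → Bool) (O : Set Can) : Set X := {x | x ∈ C → f x ∈ O}

theorem isOpen_WW (hC : IsClosed C) (hf : ContinuousOn f C) {O : Set Can} (hO : IsOpen O) :
    IsOpen (WW C f O) := by
  have h1 : (WW C f O)ᶜ = C ∩ f ⁻¹' Oᶜ := by
    ext x
    simp [WW]
  rw [← isClosed_compl_iff, h1]
  exact hf.preimage_isClosed_of_isClosed hC hO.isClosed_compl

theorem WW_inj (hs : ∀ y, ∃ c ∈ C, f c = y) : Function.Injective (WW C f) := by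
  intro O O' h
  ext y
  obtain ⟨c, hc, rfl⟩ := hs y
  have h1 : c ∈ WW C f O ↔ c ∈ WW C f O' := by rw [h]
  simpa [WW, hc] using h1

/-- The name for the lifted family. -/
def lift (C : Set X) (f : X → ℕ → Bool) (A : Nm) : Set X → Set Coh :=
  fun W => {r | ∃ O, W = WW C f O ∧ r ∈ A O}

theorem lift_WW (hs : ∀ y, ∃ c ∈ C, f c = y) (A : Nm) (O : Set Can) :
    lift C f A (WW C f O) = A O := by
  ext r
  constructor
  · rintro ⟨O', h1, h2⟩
    rw [WW_inj hs h1]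
    exact h2
  · intro h
    exact ⟨O, rfl, h⟩

theorem of_meets_lift (hs : ∀ y, ∃ c ∈ C, f c = y) {A : Nm} {W : Set X} {q : Coh}
    (h : q ∈ meets (lift C f A W)) : ∃ O, W = WW C f O ∧ q ∈ meets (A O) := by
  obtain ⟨-, -, s, ⟨O, hO, -⟩, -⟩ := h q le_rfl
  refine ⟨O, hO, ?_⟩
  rw [hO, lift_WW hs] at h
  exact h

theorem kcover_lift (hC : IsClosed C) (hf : ContinuousOn f C) (hs : ∀ y, ∃ c ∈ C, f c = y)
    {A : Nm} {p : Coh} (h : p ∈ fLegal A) : p ∈ fKCover (lift C f A) := by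
  classical
  obtain ⟨⟨h1, h2⟩, h3⟩ := h
  have hopen : p ∈ fOpenFam (lift C f A) := by
    intro W
    refine mem_fimp.2 fun q hq hW => ?_
    obtain ⟨O, rfl, h4⟩ := of_meets_lift hs hW
    obtain ⟨r, hr, h5⟩ := mem_fimp.1 (h1 O) q hq h4
    exact ⟨r, hr, isOpen_WW hC hf h5⟩
  refine ⟨hopen, fun K => mem_fimp.2 fun q hq hK => ?_⟩
  have hcov : ∀ (x : X) (q' : Coh), q' ≤ p → q' ∈ (fex fun W : Set X => fex fun _ : x ∈ W =>
      meets (lift C f A W)) := by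
    intro x q' hq'
    refine mem_fex.2 fun q1 hq1 => ?_
    obtain ⟨r, hr, O, h4⟩ := mem_fex.1 (h2 (f x)) q1 (hq1.trans hq')
    obtain ⟨r1, hr1, hxO, h5⟩ := mem_fex.1 h4 r le_rfl
    refine ⟨r1, hr1.trans hr, WW C f O, mem_fex_of_mem (fun _ => hxO) (down_meets _) ?_⟩
    rw [lift_WW hs]
    exact h5
  obtain ⟨r, hr, h4⟩ := mem_fimp.1 (hK (lift C f A)) q le_rfl
    ⟨down_fall (fun _ => down_fimp _ _) _ hopen _ hq,
      fun x => mem_fimp.2 fun q' hq' _ => ⟨q', le_rfl, hcov x q' (hq'.trans hq)⟩⟩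
  obtain ⟨r1, hr1, F, h5, h6⟩ := mem_fex.1 h4 r le_rfl
  -- the preimage of `F`
  have hF : ∀ W ∈ F, ∃ O, W = WW C f O ∧ r1 ∈ meets (A O) := fun W hW =>
    of_meets_lift hs (h5 W hW)
  let G : Finset (Set Can) := F.preimage (WW C f) (WW_inj hs).injOn
  have hG : ∀ O ∈ G, r1 ∈ meets (A O) := by
    intro O hO
    obtain ⟨O', h7, h8⟩ := hF _ (Finset.mem_preimage.1 hO)
    rw [WW_inj hs h7]
    exact h8
  obtain ⟨r2, hr2, h7⟩ := mem_fimp.1 (h3 G) r1 (hr1.trans (hr.trans hq)) fun O hO => hG O hO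
  refine ⟨r2, hr2.trans (hr1.trans hr), ?_⟩
  refine mem_fex_of_mem (WW C f (⋃ O ∈ G, O)) (down_fand (down_meets _)
    (down_fall fun _ => down_fimp _ _)) ⟨by rw [lift_WW hs]; exact h7, fun x =>
      mem_fimp.2 fun q' hq' hx => ?_⟩
  obtain ⟨r', hr', h9⟩ := mem_fimp.1 (h6 x) q' (hq'.trans hr2) hx
  refine ⟨r', hr', ?_⟩
  obtain ⟨W, hW, hxW⟩ := h9
  obtain ⟨O, rfl, -⟩ := hF W hW
  exact fun hxC => mem_iUnion₂.2 ⟨O, Finset.mem_preimage.2 hW, hxW hxC⟩

theorem fCovers_of_fKCover {A : Set X → Set Coh} {p : Coh} (h : p ∈ fKCover A) :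
    p ∈ fCovers A := by
  intro x
  -- the named singleton
  have hmem : ∀ (q : Coh) (y : X), q ∈ meets ({r | y = x} : Set Coh) → y = x := by
    intro q y hq
    obtain ⟨-, -, s, hs, -⟩ := hq q le_rfl
    exact hs
  have hK : p ∈ fCompact (fun y : X => ({r | y = x} : Set Coh)) := by
    intro B
    refine mem_fimp.2 fun q hq hB => ?_
    obtain ⟨r, hr, h1⟩ := mem_fimp.1 (hB.2 x) q le_rfl (meets_of_mem rfl)
    obtain ⟨r1, hr1, O, h2⟩ := mem_fex.1 h1 r le_rfl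
    obtain ⟨r2, hr2, hxO, h3⟩ := mem_fex.1 h2 r1 le_rfl
    refine ⟨r2, hr2.trans (hr1.trans hr), mem_fex_of_mem {O} (down_fand
      (down_fall fun _ => down_fall fun _ => down_meets _) (down_fall fun _ => down_fimp _ _))
      ⟨fun O' hO' => ?_, fun y => mem_fimp.2 fun q' hq' h4 => ⟨q', le_rfl, ?_⟩⟩⟩
    · rw [Finset.mem_singleton] at hO'
      subst hO'
      exact h3
    · have := hmem q' y h4
      subst this
      exact ⟨O, Finset.mem_singleton_self O, hxO⟩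
  refine mem_fex.2 fun q hq => ?_
  obtain ⟨r, hr, h1⟩ := mem_fimp.1 (h.2 _) q hq (down_fall (fun _ => down_fimp _ _) _ hK _ hq)
  obtain ⟨r1, hr1, O, h2, h3⟩ := mem_fex.1 h1 r le_rfl
  obtain ⟨r2, hr2, h4⟩ := mem_fimp.1 (h3 x) r1 le_rfl (meets_of_mem rfl)
  refine ⟨r2, hr2.trans (hr1.trans hr), O, mem_fex_of_mem h4 (down_meets _) ?_⟩
  exact down_meets _ _ h2 _ hr2

theorem same_lift (hs : ∀ y, ∃ c ∈ C, f c = y) {A B : Nm} {q : Coh} (h : q ∈ fSame A B) :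
    q ∈ fSame (lift C f A) (lift C f B) := by
  intro W
  refine ⟨mem_fimp.2 fun q' hq' h1 => ?_, mem_fimp.2 fun q' hq' h1 => ?_⟩
  · obtain ⟨O, rfl, h2⟩ := of_meets_lift hs h1
    obtain ⟨r, hr, h3⟩ := mem_fimp.1 (h O).1 q' hq' h2
    exact ⟨r, hr, by rw [lift_WW hs]; exact h3⟩
  · obtain ⟨O, rfl, h2⟩ := of_meets_lift hs h1
    obtain ⟨r, hr, h3⟩ := mem_fimp.1 (h O).2 q' hq' h2
    exact ⟨r, hr, by rw [lift_WW hs]; exact h3⟩

/-- A winning strategy of II in the `k`-Menger game on the space gives a strategy on the Cantor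
space. -/
theorem strat_of_lift (hC : IsClosed C) (hf : ContinuousOn f C) (hs : ∀ y, ∃ c ∈ C, f c = y)
    {𝒞 : (Set X → Set Coh) → Set Coh} (hC' : ∀ A p, p ∈ 𝒞 A → p ∈ fFinite A) {q₀ : Coh}
    {S : (n : ℕ) → (Fin (n + 1) → Set X → Set Coh) → Set X → Set Coh}
    (h : q₀ ∈ fWinning fKCover 𝒞 fKCover S) :
    Strat q₀ (fun n A O => S n (fun i => lift C f (A i)) (WW C f O)) where
  ext := by
    intro n A B q hq hAB
    obtain ⟨r, hr, h1⟩ := mem_fimp.1 (h.1 n (fun i => lift C f (A i)) (fun i => lift C f (B i)))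
      q hq fun i => same_lift hs (hAB i)
    exact ⟨r, hr, fun O => h1 (WW C f O)⟩
  ans := by
    classical
    intro n A hAl q hq
    obtain ⟨r, hr, h1, h2⟩ := mem_fimp.1 (h.2.1 n (fun i => lift C f (A i))) q hq fun i =>
      kcover_lift hC hf hs (hAl i q hq)
    obtain ⟨r1, hr1, F, h3⟩ := mem_fex.1 (hC' _ _ h1) r le_rfl
    refine ⟨r1, hr1.trans hr, F.preimage (WW C f) (WW_inj hs).injOn, fun O r' hr' h4 =>
      ⟨?_, ?_⟩⟩
    · obtain ⟨_, _, h5⟩ := mem_fimp.1 (h3 (WW C f O)) r' hr' h4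
      exact Finset.mem_preimage.2 h5
    · obtain ⟨r'', hr'', h5⟩ := mem_fimp.1 (h2 (WW C f O)) r' (hr'.trans hr1) h4
      refine ⟨r'', hr'', ?_⟩
      have h6 : r'' ∈ meets (lift C f (A (Fin.last n)) (WW C f O)) := h5
      rw [lift_WW hs] at h6
      exact h6
  cov := by
    intro A hAl x q hq
    obtain ⟨c, hcC, hcx⟩ := hs x
    have hk : ∀ n : ℕ, ∀ p ≤ q₀, p ∈ fKCover (lift C f (A n)) := fun n p hp =>
      kcover_lift hC hf hs (hAl n p hp)
    obtain ⟨r, hr, h1⟩ := mem_fimp.1 (h.2.2 fun n => lift C f (A n)) q hq fun n => hk n q hq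
    obtain ⟨r1, hr1, W, h2⟩ := mem_fex.1 (fCovers_of_fKCover h1 c) r le_rfl
    obtain ⟨r2, hr2, hcW, h3⟩ := mem_fex.1 h2 r1 le_rfl
    obtain ⟨r3, hr3, s, hs', h4⟩ := h3 r2 le_rfl
    obtain ⟨n, hn⟩ := mem_iUnion.1 hs'
    have h5 : r3 ∈ meets (S n (fun i => lift C f (A i)) W) := meets_of_le hn h4
    have hr3' : r3 ≤ q₀ := (hr3.trans (hr2.trans (hr1.trans (hr.trans hq))))
    obtain ⟨r4, hr4, -, h6⟩ := mem_fimp.1 (h.2.1 n (fun i => lift C f (A i))) r3 hr3' fun i =>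
      hk i r3 hr3'
    obtain ⟨r5, hr5, h7⟩ := mem_fimp.1 (h6 W) r4 le_rfl (down_meets _ _ h5 _ hr4)
    obtain ⟨O, rfl, -⟩ := of_meets_lift hs h7
    refine ⟨r5, hr5.trans (hr4.trans (hr3.trans (hr2.trans (hr1.trans hr)))), n, O, ?_, ?_⟩
    · rw [← hcx]
      exact hcW hcC
    · exact down_meets _ _ h5 _ (hr5.trans hr4)

end

theorem noFin_of_not_scattered {X : Type v} [TopologicalSpace X] [T2Space X] [CompactSpace X]
    (h : ¬ Scattered X) (p : Coh) :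
    p ∈ fnot (fIIWinsFin (P := Coh) (X := X) fKCover fKCover) := by
  obtain ⟨C, f, hC, hf, hs⟩ := exists_onto_cantor h
  intro q _ hq
  obtain ⟨r, _, S, hS⟩ := mem_fex.1 hq q le_rfl
  exact no_strat (strat_of_lift hC hf hs (fun A p h => h) hS)

theorem noOne_of_not_scattered {X : Type v} [TopologicalSpace X] [T2Space X] [CompactSpace X]
    (h : ¬ Scattered X) (p : Coh) :
    p ∈ fnot (fIIWinsOne (P := Coh) (X := X) fKCover fKCover) := by
  obtain ⟨C, f, hC, hf, hs⟩ := exists_onto_cantor h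
  intro q _ hq
  obtain ⟨r, _, S, hS⟩ := mem_fex.1 hq q le_rfl
  exact no_strat (strat_of_lift hC hf hs (fun A p h => fFinite_of_single h) hS)

end Pool.Agent.Zk70.Sc
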